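import Pool.Agent.Lib.MP_b5021c_nt.IfaceG

/-!
# Board b5, row HCC: two pure small extreme rays are equal
-/

namespace Pool.Agent.B5.H07

open scoped LaurentPolynomial

theorem hcc (h1 : H1S) (h2 : H2S) (hs : SmallS) : HS := by
  intro O _ _ _ _ P L _ _ _ _ _ phi D S i0 eta h c n G hfd i j b₁ b₂ hi hj hpi hpj hb₁ hb₂ hr₁ hr₂
  by_contra hne
  obtain ⟨-, ⟨a₁, -, hsu₁, e₁, he₁⟩, -⟩ := hs O P L phi D S i0 eta h c n G hfd i hi
  obtain ⟨-, ⟨a₂, -, hsu₂, e₂, he₂⟩, -⟩ := hs O P L phi D S i0 eta h c n G hfd j hj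
  have hb₁' : b₁ = a₁ := by
    rw [hsu₁] at hb₁
    rcases hb₁ with h0 | h0
    · exact absurd h0 hr₁.2.1
    · exact h0
  have hb₂' : b₂ = a₂ := by
    rw [hsu₂] at hb₂
    rcases hb₂ with h0 | h0
    · exact absurd h0 hr₂.2.1
    · exact h0
  have hij : i ≠ j := by
    intro hij
    subst hij
    rw [hsu₁] at hb₂
    rcases hb₂ with h0 | h0
    · exact hr₂.2.1 h0
    · exact hne (hb₁'.trans h0.symm)
  have hd₁ : (1 - AddMonoidAlgebra.single b₁ ((e₁⁻¹ : (RO O)ˣ) : RO O)) ∣ G i := by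
    rw [he₁, hb₁']
    exact Dvd.intro_left _ rfl
  have hd₂ : (1 - AddMonoidAlgebra.single b₂ ((e₂⁻¹ : (RO O)ˣ) : RO O)) ∣ G j := by
    rw [he₂, hb₂']
    exact Dvd.intro_left _ rfl
  have hd : (1 - AddMonoidAlgebra.single b₁ ((e₁⁻¹ : (RO O)ˣ) : RO O)) *
      (1 - AddMonoidAlgebra.single b₂ ((e₂⁻¹ : (RO O)ˣ) : RO O)) ∣
        cl (co phi i0) S h eta D := by
    rw [hfd.eq]
    refine dvd_mul_of_dvd_right ?_ _
    refine (mul_dvd_mul hd₁ hd₂).trans ?_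
    rw [← Finset.prod_pair hij]
    exact Finset.prod_dvd_prod_of_subset _ _ _ (Finset.subset_univ _)
  have hp₁ : ∀ j' ∈ OO phi S, phi (b₁ : L) j' = 0 := hpi b₁ hb₁
  have hp₂ : ∀ j' ∈ OO phi S, phi (b₂ : L) j' = 0 := hpj b₂ hb₂
  obtain ⟨hA, hB⟩ := h2 O P L phi D S i0 eta hfd.cc
  rcases h1 O P L phi D S i0 eta h b₁ b₂ e₁⁻¹ e₂⁻¹ hfd.cc hr₁ hr₂ hp₁ hp₂ hne hd with h0 | h0
  · exact hA h0
  · exact hB h0

end Pool.Agent.B5.H07
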