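import Pool.Agent.Lib.MP_b5021c_nt.IfaceB

/-!
# Board b5, row ZFI: a non-zero element has finitely many zeros on the circle
-/

namespace Pool.Agent.B5.H07

open scoped LaurentPolynomial
open Polynomial

theorem evR_toLaurent {O : Type} [CommRing O] [Coef O] (z : Circle) (f : O[X]) :
    evR z (Polynomial.toLaurent f) = (f.map (Coef.emb : O →+* ℂ)).eval (z : ℂ) := by
  unfold evR
  rw [LaurentPolynomial.eval₂_toLaurent, Polynomial.eval_map]
  rfl

theorem evR_T {O : Type} [CommRing O] [Coef O] (z : Circle) (n : ℤ) :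
    evR z (LaurentPolynomial.T n : RO O) = (z : ℂ) ^ n := by
  unfold evR
  rw [LaurentPolynomial.eval₂_T, Units.val_zpow_eq_zpow_val]
  rfl

theorem zfi : ZfinS := by
  intro O _ _ _ _ p hp
  obtain ⟨n, f, hf⟩ := LaurentPolynomial.exists_T_pow p
  have hf0 : f ≠ 0 := by
    intro h
    rw [h, map_zero] at hf
    have h2 := congrArg (fun q : RO O => q * LaurentPolynomial.T (-(n : ℤ))) hf
    simp only [zero_mul, mul_assoc, ← LaurentPolynomial.T_add, add_neg_cancel,
      LaurentPolynomial.T_zero, mul_one] at h2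
    exact hp h2.symm
  have hg0 : f.map (Coef.emb : O →+* ℂ) ≠ 0 :=
    (Polynomial.map_ne_zero_iff emb_inj).mpr hf0
  refine Set.Finite.subset
    (Set.Finite.preimage (f := fun z : Circle => (z : ℂ)) (fun a _ b _ h => Circle.ext h)
      (Multiset.finite_toSet (f.map (Coef.emb : O →+* ℂ)).roots)) ?_
  intro z hz
  have h1 := congrArg (evR z) hf
  rw [map_mul, evR_toLaurent] at h1
  have hz' : evR z p = 0 := hz
  rw [hz', zero_mul] at h1
  exact (Polynomial.mem_roots hg0).mpr h1

end Pool.Agent.B5.H07
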