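import Pool.Agent.Lib.MP_b5021c_nt.IfaceS1
import Pool.Agent.Lib.MP_b5021c_nt.B.H42.G3c

/-!
# Board b5, row S_LSM: the number of small non-pure factors, second bound
-/

namespace Pool.Agent.B5.H07

theorem lsm (hL : LsaS) (hA : A2S) (hM : MmulS) : LsmS := by
  intro O _ _ _ _ P L _ _ _ _ _ phi D S i0 eta h c n G fd
  obtain ⟨q, hq, hle⟩ := hL O P L phi D S i0 eta h c n G fd
  have hD : D.coeff 0 ≠ 0 := fd.cc.dd.st.1
  have hV : D.coeff 0 + (eta : RO O) * D.coeff S ≠ 0 := fd.cc.v0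
  have hG : ∀ i ∈ big G, (G i).coeff 0 ≠ 0 := fun i _ => (fd.st i).1
  have hP : ∏ i ∈ big G, (G i).coeff 0 ≠ 0 := Finset.prod_ne_zero_iff.2 hG
  have h1 := hA O {l // l ∈ snp phi S i0 G}
    (fun l => q l.1 * (∏ i ∈ big G, (G i).coeff 0) *
      (D.coeff 0 + (eta : RO O) * D.coeff S)) (D.coeff 0 * D.coeff 0) 1 (mul_ne_zero hD hD)
    (fun l => mul_ne_zero (mul_ne_zero (hq l.1) hP) hV) one_pos (fun z => by
      rw [map_mul (evR z) (D.coeff 0), norm_mul, one_mul]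
      refine le_trans (le_of_eq ?_) ((hle z).trans (le_of_eq (sq _)))
      rw [← Finset.sum_coe_sort (snp phi S i0 G)
        (fun l => ‖evR z (q l)‖ * ∏ i ∈ big G, ‖evR z ((G i).coeff 0)‖), Finset.sum_mul]
      refine Finset.sum_congr rfl fun l _ => ?_
      rw [map_mul, map_mul, norm_mul, norm_mul, map_prod, norm_prod])
  rw [one_mul, (hM O).1 _ _ hD hD, ← sq] at h1
  refine le_trans ?_ h1
  have h2 : ∀ l : {l // l ∈ snp phi S i0 G}, (∏ i ∈ big G, M ((G i).coeff 0)) *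
      M (D.coeff 0 + (eta : RO O) * D.coeff S) ≤
      M (q l.1 * (∏ i ∈ big G, (G i).coeff 0) * (D.coeff 0 + (eta : RO O) * D.coeff S)) := by
    intro l
    rw [(hM O).1 _ _ (mul_ne_zero (hq l.1) hP) hV, (hM O).1 _ _ (hq l.1) hP,
      H42.M_prod hM O (big G) (fun i => (G i).coeff 0) hG]
    have h3 : 0 ≤ ∏ i ∈ big G, M ((G i).coeff 0) :=
      Finset.prod_nonneg fun i _ => le_trans zero_le_one ((hM O).2.1 _)
    have h4 : 0 ≤ M (D.coeff 0 + (eta : RO O) * D.coeff S) :=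
      le_trans zero_le_one ((hM O).2.1 _)
    exact mul_le_mul_of_nonneg_right (le_mul_of_one_le_left h3 ((hM O).2.1 _)) h4
  calc ((snp phi S i0 G).card : ℝ) * (∏ i ∈ big G, M ((G i).coeff 0)) *
        M (D.coeff 0 + (eta : RO O) * D.coeff S)
      = ∑ _l : {l // l ∈ snp phi S i0 G}, (∏ i ∈ big G, M ((G i).coeff 0)) *
        M (D.coeff 0 + (eta : RO O) * D.coeff S) := by
        rw [Finset.sum_const, Finset.card_univ, Fintype.card_coe, nsmul_eq_mul, mul_assoc]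
    _ ≤ _ := Finset.sum_le_sum fun l _ => h2 l

end Pool.Agent.B5.H07
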