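import Pool.Agent.Lib.MP_b5021c_nt.IfaceS2
import Pool.Agent.Lib.MP_b5021c_nt.B.H40.Lop

/-!
# Board b5, stage 2, row T_PDA: the data of a load problem in class `P`
-/

namespace Pool.Agent.B5.H07

open Polynomial
open Pool.Agent.MP_b5021c_nt (Eis)
open Pool.Agent.B5.H40 (one_zero_factor exists_normal to_poly pca)

/-- Row T_PDA. -/
theorem pda (hPch : PchS) : PdaS := by
  intro θ Q F hQ hF hnz hle hne
  obtain ⟨hθ, n, q, rfl, hq1, w, hw, hroots⟩ := hQ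
  obtain ⟨m, f, rfl, hf0⟩ := exists_normal F hF
  obtain ⟨hnz', hle', z0, hz0, hne'⟩ := to_poly n m q f hnz hle hne
  have hθ0 : 0 < θ := by linarith
  have hw0 : w ≠ 0 := by
    rintro rfl
    rw [norm_zero] at hw
    have : 0 < θ⁻¹ := inv_pos.mpr hθ0
    linarith
  have hqc0 : q.map (Coef.emb : Eis →+* ℂ) ≠ 0 := by
    intro h0
    rw [h0] at hroots
    simp at hroots
  have hTn : ‖w⁻¹‖ = θ := by rw [norm_inv, hw, inv_inv]
  have hT1 : 1 < ‖w⁻¹‖ := by rw [hTn]; exact hθ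
  obtain ⟨s, hs, hsnz⟩ := one_zero_factor (q.map (Coef.emb : Eis →+* ℂ)) w hqc0 hw0 hroots hnz'
  obtain ⟨c, r, hY, hcb, hrb, hr0⟩ := pca (q.map (Coef.emb : Eis →+* ℂ))
    (f.map (Coef.emb : Eis →+* ℂ)) s w⁻¹ hT1 hs hsnz hle'
  refine ⟨n, m, q, f, s, r, w⁻¹, c, rfl, rfl, ?_⟩
  refine ⟨hθ, hq1, hf0, hnz', ?_, hTn, hle', ⟨z0, hz0, hne'⟩, hs, hY, hsnz, hrb, ?_, hr0, ?_⟩
  · rw [inv_inv]
    exact hroots
  · rw [hTn] at hcb
    exact hcb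
  · apply hPch r s w⁻¹ c hT1 hsnz
    intro z hz
    rw [← hY, ← hs]
    exact hle' z hz

end Pool.Agent.B5.H07
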