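import Pool.Agent.Lib.MP_b5021c_nt.IfaceS4
import Pool.Agent.Lib.MP_b5021c_nt.B.H40.LoadBase
import Pool.Agent.Lib.MP_b5021c_nt.H45.Mmu

/-!
# Board b5, stage 2, row U_CRO: the cross lemma (lowest coefficients)
-/

namespace Pool.Agent.B5.H07

open Polynomial
open Pool.Agent.B5.H40 (exists_normal)
open Pool.Agent.B5.H45 (M_T_mul)

section

variable {O : Type} [CommRing O] [Coef O]

/-- The modulus of the lowest coefficient. -/
def Low (p : RO O) (x : ℝ) : Prop :=
  ∃ (n : ℤ) (q : O[X]), p = LaurentPolynomial.T n * toLaurent q ∧ q.coeff 0 ≠ 0 ∧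
    ‖(Coef.emb (q.coeff 0) : ℂ)‖ = x

theorem low_exists {p : RO O} (hp : p ≠ 0) : ∃ x, Low p x := by
  obtain ⟨n, q, h1, h2⟩ := exists_normal p hp
  exact ⟨_, n, q, h1, h2, rfl⟩

theorem low_one_le {p : RO O} {x : ℝ} (h : Low p x) : 1 ≤ x := by
  obtain ⟨n, q, -, h2, rfl⟩ := h
  exact Coef.one_le _ h2

theorem low_le_M (hA6 : A6S) {p : RO O} {x : ℝ} (h : Low p x) : x ≤ M p := by
  obtain ⟨n, q, rfl, h2, rfl⟩ := h
  have hq : q ≠ 0 := by
    rintro rfl
    simp at h2
  rw [M_T_mul n hq]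
  have h3 := hA6 (q.map (Coef.emb : O →+* ℂ))
  have h4 : (q.map (Coef.emb : O →+* ℂ)).coeff 0 ≠ 0 := by
    rw [coeff_map]
    intro h5
    exact h2 ((injective_iff_map_eq_zero _).mp emb_inj _ h5)
  have h6 : (q.map (Coef.emb : O →+* ℂ)).trailingCoeff = (q.map (Coef.emb : O →+* ℂ)).coeff 0 := by
    rw [trailingCoeff, natTrailingDegree_eq_zero_of_constantCoeff_ne_zero]
    exact h4
  rw [h6, coeff_map] at h3
  exact h3

theorem low_mul [IsDomain O] {p q : RO O} {x y : ℝ} (hp : Low p x) (hq : Low q y) :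
    Low (p * q) (x * y) := by
  obtain ⟨n, f, rfl, h1, rfl⟩ := hp
  obtain ⟨m, g, rfl, h2, rfl⟩ := hq
  refine ⟨n + m, f * g, ?_, ?_, ?_⟩
  · rw [LaurentPolynomial.T_add, map_mul]
    ring
  · rw [mul_coeff_zero]
    exact mul_ne_zero h1 h2
  · rw [mul_coeff_zero, map_mul, norm_mul]

omit [Coef O] in
theorem coeff_low (n : ℤ) (q : O[X]) :
    ((LaurentPolynomial.T n * toLaurent q : RO O).coeff n = q.coeff 0) ∧
    ∀ k : ℤ, k < n → (LaurentPolynomial.T n * toLaurent q : RO O).coeff k = 0 := by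
  induction q using Polynomial.induction_on' with
  | add p q hp hq =>
    constructor
    · rw [map_add, mul_add, AddMonoidAlgebra.coeff_add, Finsupp.add_apply, hp.1, hq.1, coeff_add]
    · intro k hk
      rw [map_add, mul_add, AddMonoidAlgebra.coeff_add, Finsupp.add_apply, hp.2 k hk, hq.2 k hk,
        add_zero]
  | monomial m a =>
    have h1 : (LaurentPolynomial.T n * toLaurent (monomial m a) : RO O) =
        AddMonoidAlgebra.single (n + m) a := by
      rw [← C_mul_X_pow_eq_monomial, map_mul, toLaurent_C, toLaurent_X_pow,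
        LaurentPolynomial.single_eq_C_mul_T, LaurentPolynomial.T_add]
      ring
    rw [h1]
    constructor
    · rw [AddMonoidAlgebra.coeff_single, Finsupp.single_apply, coeff_monomial]
      by_cases hm : m = 0
      · subst hm
        simp
      · rw [if_neg (by omega), if_neg hm]
    · intro k hk
      rw [AddMonoidAlgebra.coeff_single, Finsupp.single_apply, if_neg (by omega)]

theorem low_unique {p : RO O} {x y : ℝ} (hx : Low p x) (hy : Low p y) : x = y := by
  obtain ⟨n, f, h1, h2, h3⟩ := hx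
  obtain ⟨m, g, h4, h5, h6⟩ := hy
  have hnm : n = m := by
    rcases lt_trichotomy n m with h | h | h
    · exfalso
      apply h2
      have h7 := (coeff_low m g).2 n h
      rw [← h4, h1, (coeff_low n f).1] at h7
      exact h7
    · exact h
    · exfalso
      apply h5
      have h7 := (coeff_low n f).2 m h
      rw [← h1, h4, (coeff_low m g).1] at h7
      exact h7
  subst hnm
  have h8 : f.coeff 0 = g.coeff 0 := by
    rw [← (coeff_low n f).1, ← (coeff_low n g).1, ← h1, ← h4]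
  rw [← h3, ← h6, h8]

theorem low_classV {p : RO O} {N : ℝ} (h : ClassV N p) : Low p N := by
  obtain ⟨h1, n, q, h2, h3, -⟩ := h
  refine ⟨n, q, h2, ?_, h3⟩
  intro h4
  rw [h4, map_zero, norm_zero] at h3
  linarith

theorem low_classP {p : RO O} {θ : ℝ} (h : ClassP θ p) : Low p 1 := by
  obtain ⟨h1, n, q, h2, h3, -⟩ := h
  refine ⟨n, q, h2, ?_, h3⟩
  intro h4
  rw [h4, map_zero, norm_zero] at h3
  norm_num at h3

theorem norm_unit [Nontrivial O] {u : O} (hu : IsUnit u) : ‖(Coef.emb u : ℂ)‖ = 1 := by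
  obtain ⟨v, hv⟩ := hu.exists_right_inv
  have hu0 : u ≠ 0 := hu.ne_zero
  have hv0 : v ≠ 0 := by
    rintro rfl
    rw [mul_zero] at hv
    exact zero_ne_one hv
  have h1 := Coef.one_le u hu0
  have h2 := Coef.one_le v hv0
  have h3 : ‖(Coef.emb u : ℂ)‖ * ‖(Coef.emb v : ℂ)‖ = 1 := by
    rw [← norm_mul, ← map_mul, hv, map_one, norm_one]
  nlinarith

/-- The lowest coefficient of `1 - u z^n`. -/
theorem low_one_sub [Nontrivial O] {u : O} (hu : IsUnit u) {n : ℤ} (hn : n ≠ 0) :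
    Low (1 - LaurentPolynomial.C u * LaurentPolynomial.T n : RO O) 1 := by
  rcases lt_or_gt_of_ne hn with h | h
  · obtain ⟨k, hk⟩ : ∃ k : ℕ, n = -(k : ℤ) := ⟨n.natAbs, by omega⟩
    subst hk
    have hk0 : k ≠ 0 := by
      rintro rfl
      simp at hn
    refine ⟨-(k : ℤ), X ^ k - C u, ?_, ?_, ?_⟩
    · rw [map_sub, toLaurent_X_pow, toLaurent_C, mul_sub, ← LaurentPolynomial.T_add,
        neg_add_cancel, LaurentPolynomial.T_zero]
      ring
    · rw [coeff_sub, coeff_X_pow, if_neg (Ne.symm hk0), coeff_C_zero, zero_sub]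
      exact neg_ne_zero.mpr hu.ne_zero
    · rw [coeff_sub, coeff_X_pow, if_neg (Ne.symm hk0), coeff_C_zero, zero_sub, map_neg, norm_neg]
      exact norm_unit hu
  · obtain ⟨k, hk⟩ : ∃ k : ℕ, n = (k : ℤ) := ⟨n.natAbs, by omega⟩
    subst hk
    have hk0 : k ≠ 0 := by
      rintro rfl
      simp at hn
    refine ⟨0, 1 - C u * X ^ k, ?_, ?_, ?_⟩
    · rw [map_sub, map_one, map_mul, toLaurent_X_pow, toLaurent_C, LaurentPolynomial.T_zero, one_mul]
    · rw [coeff_sub, coeff_C_mul, coeff_X_pow, if_neg (Ne.symm hk0), mul_zero, sub_zero,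
        coeff_one_zero]
      exact one_ne_zero
    · rw [coeff_sub, coeff_C_mul, coeff_X_pow, if_neg (Ne.symm hk0), mul_zero, sub_zero,
        coeff_one_zero, map_one, norm_one]

/-- The quotient of the two loads of a cross pair. -/
theorem cross_quot (hU : UnitRS) [IsDomain O] [IsPrincipalIdealRing O] {Q F : RO O}
    {eta eta' : (RO O)ˣ} (h : Cross Q F eta eta' ∨ Cross Q F eta' eta) :
    ∃ (u : O) (n : ℤ), IsUnit u ∧ n ≠ 0 ∧
      (eta' : RO O) * ((eta⁻¹ : (RO O)ˣ) : RO O) = LaurentPolynomial.C u * LaurentPolynomial.T n := by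
  have hunit : IsUnit ((eta' : RO O) * ((eta⁻¹ : (RO O)ˣ) : RO O)) :=
    eta'.isUnit.mul (eta⁻¹).isUnit
  obtain ⟨n, u, hu, hun⟩ := (hU O _).mp hunit
  refine ⟨u, n, hu, ?_, hun⟩
  rintro rfl
  rw [LaurentPolynomial.T_zero, mul_one] at hun
  rcases h with ⟨-, -, w, k, hk, he⟩ | ⟨-, -, w, k, hk, he⟩
  · have h1 : LaurentPolynomial.C w * LaurentPolynomial.T k = (LaurentPolynomial.C u : RO O) := by
      rw [← hun, he, mul_assoc, Units.mul_inv, mul_one]
    rw [← LaurentPolynomial.single_eq_C_mul_T] at h1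
    have h2 := congrArg (fun p : RO O => p.coeff 0) h1
    simp only [LaurentPolynomial.C_apply, if_true] at h2
    rw [AddMonoidAlgebra.coeff_single, Finsupp.single_apply, if_neg hk] at h2
    exact hu.ne_zero h2.symm
  · have h1 : LaurentPolynomial.C (w * u) * LaurentPolynomial.T k = (1 : RO O) := by
      have h3 : (eta : RO O) * ((eta⁻¹ : (RO O)ˣ) : RO O) = 1 := Units.mul_inv eta
      rw [he, mul_assoc, hun] at h3
      rw [map_mul, ← h3]
      ring
    rw [← LaurentPolynomial.single_eq_C_mul_T, ← map_one (LaurentPolynomial.C (R := O))] at h1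
    have h2 := congrArg (fun p : RO O => p.coeff 0) h1
    simp only [LaurentPolynomial.C_apply, if_true] at h2
    rw [AddMonoidAlgebra.coeff_single, Finsupp.single_apply, if_neg hk] at h2
    exact zero_ne_one h2

end

/-- Row U_CRO. -/
theorem cro (small : SmallS) (kmu : KmuS) (apa : ApaS) (hU : UnitRS) (hM : MmulS) (hMVs : MVS)
    (hA6 : A6S) : CroS := by
  intro O _ _ _ _ P L _ _ _ _ _ phi D S i0 eta h c n G hfd hfull hsim eta' hv0 hcr hdrop
  by_contra hne
  obtain ⟨l, hl⟩ := Finset.nonempty_iff_ne_empty.mpr hne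
  have hl' : ¬ 1 < M ((G l).coeff 0) ∧ ¬ Pure phi S i0 (G l) := by
    classical
    unfold snp at hl
    exact (Finset.mem_filter.mp hl).2
  obtain ⟨b, j, e, hspt⟩ := (small O P L phi D S i0 eta h c n G hfd l hl'.1).2.2 hl'.2
  obtain ⟨mu, hmu0, hmu⟩ := kmu (Ker (co phi i0)) (supp (cl (co phi i0) S h eta' D)) hdrop
  obtain ⟨u, k, hu, hk, hquot⟩ := cross_quot hU hcr
  have hlow1 : Low (1 - (eta' : RO O) * ((eta⁻¹ : (RO O)ˣ) : RO O)) 1 := by
    rw [hquot]
    exact low_one_sub hu hk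
  have hneq : eta' ≠ eta := by
    rintro rfl
    obtain ⟨m, q, h1, h2, -⟩ := hlow1
    rw [Units.mul_inv, sub_self] at h1
    have h3 := (coeff_low m q).1
    rw [← h1] at h3
    exact h2 h3.symm
  obtain ⟨q0, U0, h1, h2, -⟩ := apa O P L phi D S i0 eta h c n G hfd l b j e hspt hfull eta'
    hneq hv0 mu hmu0 hmu
  -- non-zero elements
  have hq0U0 : q0 * U0 ≠ 0 := by
    intro h0
    rw [h0, mul_zero] at h1
    exact hv0 h1
  have hq0 : q0 ≠ 0 := left_ne_zero_of_mul hq0U0
  have hU0 : U0 ≠ 0 := right_ne_zero_of_mul hq0U0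
  have hV0 := hfd.cc.v0
  have hg : c * (G l).coeff 0 ≠ 0 := by
    intro h0
    rw [h0, zero_mul] at h2
    exact hV0 h2
  have hGl : (G l).coeff 0 ≠ 0 := right_ne_zero_of_mul hg
  obtain ⟨hM1, hM2, hM3⟩ := hM O
  have hMg : M (c * (G l).coeff 0) = 1 := by
    rw [hM1 c _ hfd.c0 hGl, hsim.2.1, one_mul]
    exact le_antisymm (not_lt.mp hl'.1) (hM2 _)
  -- the measure of `V_0` is larger than one
  have hbig : 1 < M (D.coeff 0 + (eta : RO O) * D.coeff S) := by
    obtain ⟨i1, hi1⟩ := Finset.card_eq_one.mp hsim.1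
    have hi1' : 1 < M ((G i1).coeff 0) := by
      have h3 : i1 ∈ big G := by
        rw [hi1]
        exact Finset.mem_singleton_self _
      classical
      unfold big at h3
      exact (Finset.mem_filter.mp h3).2
    have h4 : (c * ∏ i, (G i).coeff 0) ≠ 0 := by
      rw [← hfd.v00]
      exact hV0
    rw [hfd.v00]
    have h5 : c * ∏ i, (G i).coeff 0 =
        (G i1).coeff 0 * (c * ∏ i ∈ Finset.univ.erase i1, (G i).coeff 0) := by
      rw [← Finset.mul_prod_erase _ _ (Finset.mem_univ i1)]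
      ring
    rw [h5] at h4 ⊢
    rw [hM1 _ _ (left_ne_zero_of_mul h4) (right_ne_zero_of_mul h4)]
    nlinarith [hM2 (c * ∏ i ∈ Finset.univ.erase i1, (G i).coeff 0)]
  -- it is enough that `M U0 ≤ 1`
  have hMV : M (D.coeff 0 + (eta : RO O) * D.coeff S) = M U0 := by
    rw [h2, hM1 _ _ hg hU0, hMg, one_mul]
  obtain ⟨x, hx⟩ := low_exists hq0
  obtain ⟨y, hy⟩ := low_exists hU0
  obtain ⟨w, hw⟩ := low_exists hg
  have hx1 := low_one_le hx
  have hy1 := low_one_le hy
  have hw1 := low_one_le hw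
  have hwM := low_le_M hA6 hw
  rw [hMg] at hwM
  have hw' : w = 1 := le_antisymm hwM hw1
  have hlowV : Low (D.coeff 0 + (eta : RO O) * D.coeff S) (w * y) := by
    rw [h2]
    exact low_mul hw hy
  have hlowV' : Low (D.coeff 0 + (eta' : RO O) * D.coeff S) (1 * (x * y)) := by
    rw [h1]
    exact low_mul hlow1 (low_mul hx hy)
  have hclass : ∀ e' : (RO O)ˣ, (ClassV 1 (D.coeff 0 + (e' : RO O) * D.coeff S) ∨
      ∃ θ' : ℝ, ClassP θ' (D.coeff 0 + (e' : RO O) * D.coeff S)) →
      Low (D.coeff 0 + (e' : RO O) * D.coeff S) 1 := by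
    rintro e' (h3 | ⟨θ', h3⟩)
    · exact low_classV h3
    · exact low_classP h3
  obtain ⟨hMVa, -⟩ := hMVs O
  rcases hcr with ⟨⟨N', hN'⟩, hP, -⟩ | ⟨⟨N', hN'⟩, hP, -⟩
  · -- `eta` is the load of class `V`
    have h3 : 1 * (x * y) = 1 := low_unique hlowV' (hclass eta' hP)
    have h4 : w * y = N' := low_unique hlowV (low_classV hN')
    have h5 := (hMVa N' _ hN').2
    rw [h5] at hbig
    nlinarith
  · -- `eta'` is the load of class `V`
    have h3 : w * y = 1 := low_unique hlowV (hclass eta hP)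
    have h4 : 1 * (x * y) = N' := low_unique hlowV' (low_classV hN')
    have h5 := (hMVa N' _ hN').2
    have hne1 : (1 - (eta' : RO O) * ((eta⁻¹ : (RO O)ˣ) : RO O)) ≠ 0 := by
      intro h0
      rw [h0, zero_mul] at h1
      exact hv0 h1
    rw [h1, hM1 _ _ hne1 hq0U0, hM1 _ _ hq0 hU0] at h5
    have h6 := hM2 (1 - (eta' : RO O) * ((eta⁻¹ : (RO O)ˣ) : RO O))
    have h7 := low_le_M hA6 hx
    have hy2 : y = 1 := by
      rw [hw', one_mul] at h3
      exact h3
    rw [hy2, mul_one, one_mul] at h4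
    rw [hMV] at hbig
    have h8 : x * M U0 ≤ M q0 * M U0 := by nlinarith
    have h9 : M q0 * M U0 ≤ N' := by
      have h10 : 0 ≤ M q0 * M U0 := by nlinarith
      nlinarith
    nlinarith

end Pool.Agent.B5.H07
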